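import Mathlib

set_option autoImplicit false

namespace Pool.Agent.Results.MP_acad4b_co.SixPointWinner

/-! ### The game -/

/-- The Euclidean plane. -/
abbrev Plane : Type := EuclideanSpace ℝ (Fin 2)

/-- A set `S` of selected points contains a copy of the goal set `G`,
that is, the image of `G` under some isometry of the plane. -/
def Built {P : Type} [MetricSpace P] (G : Finset P) (S : Set P) : Prop :=
  ∃ φ : P ≃ᵢ P, ∀ g ∈ G, φ g ∈ S

/-- The point selected by Player 1 in his move number `n` (counting from `0`) when he follows the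
strategy `σ` (a function of the list of the points selected by Player 2 so far, in order) and
Player 2 selects `y 0, y 1, ...`. -/
def move {P : Type} (σ : List P → P) (y : ℕ → P) (n : ℕ) : P :=
  σ (List.ofFn fun i : Fin n => y i)

/-- Player 2 always selects a point not selected before. -/
def LegalTwo {P : Type} (σ : List P → P) (y : ℕ → P) : Prop :=
  ∀ n, (∀ i ≤ n, y n ≠ move σ y i) ∧ ∀ i < n, y n ≠ y i

/-- Player 1 always selects a point not selected before. -/
def LegalOne {P : Type} (σ : List P → P) (y : ℕ → P) : Prop :=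
  ∀ n, (∀ i < n, move σ y n ≠ move σ y i) ∧ ∀ i < n, move σ y n ≠ y i

/-- Player 1 has built a copy of `G` with his moves `0, ..., n`, and Player 2 has
not built a copy of `G` with the moves made before that. -/
def WinsAt {P : Type} [MetricSpace P] (G : Finset P) (σ : List P → P) (y : ℕ → P) (n : ℕ) : Prop :=
  Built G {p | ∃ i ≤ n, p = move σ y i} ∧ ¬ Built G {p | ∃ i < n, p = y i}

/-- `σ` is a strong winning strategy of Player 1 that wins with his move number `n` at the
latest, whatever Player 2 does. -/
def StrongWinningWithin {P : Type} [MetricSpace P] (G : Finset P) (σ : List P → P) (n : ℕ) :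
    Prop :=
  ∀ y : ℕ → P, LegalTwo σ y → LegalOne σ y ∧ ∃ m ≤ n, WinsAt G σ y m

/-! ### From positions to strategies -/

section Strategy

variable {P : Type} [DecidableEq P]

/-- Player 1, to move, can complete a good set with exactly `k + 1` further moves. -/
def W (bld : Finset P → Prop) : ℕ → Finset P → Finset P → Prop
  | 0, A, B => ∃ x, x ∉ A ∧ x ∉ B ∧ bld (insert x A)
  | k + 1, A, B => ∃ x, x ∉ A ∧ x ∉ B ∧
      ∀ y, y ∉ insert x A → y ∉ B → W bld k (insert x A) (insert y B)

/-- What Player 1 wants of his next point. -/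
def Want (bld : Finset P → Prop) : ℕ → Finset P → Finset P → P → Prop
  | 0, A, _, x => bld (insert x A)
  | k + 1, A, B, x => ∀ y, y ∉ insert x A → y ∉ B → W bld k (insert x A) (insert y B)

theorem W_iff (bld : Finset P → Prop) (k : ℕ) (A B : Finset P) :
    W bld k A B ↔ ∃ x, x ∉ A ∧ x ∉ B ∧ Want bld k A B x := by
  cases k <;> rfl

variable [Infinite P]

open Classical in
/-- The next point of Player 1 in a given position. -/
noncomputable def best (bld : Finset P → Prop) (k : ℕ) (A B : Finset P) : P :=
  if h : ∃ x, x ∉ A ∧ x ∉ B ∧ Want bld k A B x then h.choose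
  else (Infinite.exists_notMem_finset (A ∪ B)).choose

theorem best_notMem (bld : Finset P → Prop) (k : ℕ) (A B : Finset P) :
    best bld k A B ∉ A ∧ best bld k A B ∉ B := by
  unfold best
  split_ifs with h
  · exact ⟨h.choose_spec.1, h.choose_spec.2.1⟩
  · have := (Infinite.exists_notMem_finset (A ∪ B)).choose_spec
    rw [Finset.mem_union, not_or] at this
    exact this

theorem best_want (bld : Finset P → Prop) (k : ℕ) (A B : Finset P) (h : W bld k A B) :
    Want bld k A B (best bld k A B) := by
  rw [W_iff] at h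
  unfold best
  rw [dif_pos h]
  exact h.choose_spec.2.2

/-- The state (points of Player 1, points of Player 2, remaining moves) after one more
move of both players. -/
noncomputable def step (bld : Finset P → Prop) (s : Finset P × Finset P × ℕ) (y : P) :
    Finset P × Finset P × ℕ :=
  (insert (best bld s.2.2 s.1 s.2.1) s.1, insert y s.2.1, s.2.2 - 1)

/-- The state after the moves `l` of Player 2. -/
noncomputable def state (bld : Finset P → Prop) (k : ℕ) (l : List P) : Finset P × Finset P × ℕ :=
  l.foldl (step bld) (∅, ∅, k)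

/-- The strategy of Player 1. -/
noncomputable def strat (bld : Finset P → Prop) (k : ℕ) (l : List P) : P :=
  best bld (state bld k l).2.2 (state bld k l).1 (state bld k l).2.1

theorem state_succ (bld : Finset P → Prop) (k : ℕ) (y : ℕ → P) (n : ℕ) :
    state bld k (List.ofFn fun i : Fin (n + 1) => y i) =
      step bld (state bld k (List.ofFn fun i : Fin n => y i)) (y n) := by
  unfold state
  rw [List.ofFn_succ', List.concat_eq_append, List.foldl_append]
  simp

theorem state_eq (bld : Finset P → Prop) (k : ℕ) (y : ℕ → P) (n : ℕ) :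
    state bld k (List.ofFn fun i : Fin n => y i) =
      ((Finset.range n).image (fun i => move (strat bld k) y i), (Finset.range n).image y,
        k - n) := by
  induction n with
  | zero => simp [state]
  | succ n ih =>
    rw [state_succ, ih]
    unfold step
    refine Prod.ext ?_ (Prod.ext ?_ ?_)
    · simp only
      rw [Finset.range_add_one, Finset.image_insert]
      congr 1
      unfold move strat
      rw [ih]
      rfl
    · simp only
      rw [Finset.range_add_one, Finset.image_insert]
    · simp only
      omega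

theorem strat_legal (bld : Finset P → Prop) (k : ℕ) (y : ℕ → P) :
    LegalOne (strat bld k) y := by
  intro n
  have h := best_notMem bld (state bld k (List.ofFn fun i : Fin n => y i)).2.2
    (state bld k (List.ofFn fun i : Fin n => y i)).1
    (state bld k (List.ofFn fun i : Fin n => y i)).2.1
  have hm : move (strat bld k) y n = best bld (state bld k (List.ofFn fun i : Fin n => y i)).2.2
    (state bld k (List.ofFn fun i : Fin n => y i)).1
    (state bld k (List.ofFn fun i : Fin n => y i)).2.1 := rfl
  rw [← hm, state_eq] at h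
  simp only [Finset.mem_image, Finset.mem_range, not_exists, not_and] at h
  exact ⟨fun i hi h' => h.1 i hi h'.symm, fun i hi h' => h.2 i hi h'.symm⟩

theorem strat_wins (bld : Finset P → Prop) (k : ℕ) (hW : W bld k ∅ ∅) (y : ℕ → P)
    (hy : LegalTwo (strat bld k) y) :
    bld ((Finset.range (k + 1)).image (fun i => move (strat bld k) y i)) := by
  have key : ∀ n ≤ k, W bld (k - n) ((Finset.range n).image (fun i => move (strat bld k) y i))
      ((Finset.range n).image y) := by
    intro n
    induction n with
    | zero => intro _; simpa using hW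
    | succ n ih =>
      intro hn
      have h := best_want bld _ _ _ (ih (by omega))
      have hm : move (strat bld k) y n = best bld (k - n)
          ((Finset.range n).image (fun i => move (strat bld k) y i))
          ((Finset.range n).image y) := by
        show best bld _ _ _ = _
        rw [state_eq]
      rw [← hm] at h
      obtain ⟨j, hj⟩ : ∃ j, k - n = j + 1 := ⟨k - n - 1, by omega⟩
      rw [hj] at h
      have hj' : k - (n + 1) = j := by omega
      rw [hj', Finset.range_add_one, Finset.image_insert, Finset.image_insert]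
      apply h
      · intro hmem
        rw [← Finset.image_insert, ← Finset.range_add_one] at hmem
        obtain ⟨i, hi, hi'⟩ := Finset.mem_image.1 hmem
        exact (hy n).1 i (by have := Finset.mem_range.1 hi; omega) hi'.symm
      · intro hmem
        obtain ⟨i, hi, hi'⟩ := Finset.mem_image.1 hmem
        exact (hy n).2 i (Finset.mem_range.1 hi) hi'.symm
  have h := best_want bld _ _ _ (key k le_rfl)
  have hm : move (strat bld k) y k = best bld (k - k)
      ((Finset.range k).image (fun i => move (strat bld k) y i))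
      ((Finset.range k).image y) := by
    show best bld _ _ _ = _
    rw [state_eq]
  rw [← hm, Nat.sub_self] at h
  rw [Finset.range_add_one, Finset.image_insert]
  exact h

end Strategy

/-- A fast win in the sense of positions gives a strong winning strategy. -/
theorem strongWin_of_W {P : Type} [MetricSpace P] [DecidableEq P] [Infinite P] (G : Finset P)
    (k : ℕ) (hk : k < G.card) (hW : W (fun S : Finset P => Built G (S : Set P)) k ∅ ∅) :
    ∃ σ : List P → P, StrongWinningWithin G σ k := by
  refine ⟨strat (fun S : Finset P => Built G (S : Set P)) k,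
    fun y hy => ⟨strat_legal _ _ _, k, le_rfl, ?_, ?_⟩⟩
  · obtain ⟨φ, hφ⟩ := strat_wins _ k hW y hy
    refine ⟨φ, fun g hg => ?_⟩
    have := hφ g hg
    rw [Finset.mem_coe, Finset.mem_image] at this
    obtain ⟨i, hi, hi'⟩ := this
    exact ⟨i, by have := Finset.mem_range.1 hi; omega, hi'.symm⟩
  · rintro ⟨φ, hφ⟩
    have hsub : G.image φ ⊆ (Finset.range k).image y := by
      intro p hp
      obtain ⟨g, hg, rfl⟩ := Finset.mem_image.1 hp
      obtain ⟨i, hi, hi'⟩ := hφ g hg
      exact Finset.mem_image.2 ⟨i, Finset.mem_range.2 hi, hi'.symm⟩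
    have h1 := Finset.card_le_card hsub
    rw [Finset.card_image_of_injective _ φ.injective] at h1
    have h2 : ((Finset.range k).image y).card ≤ k := by
      simpa using Finset.card_image_le (s := Finset.range k) (f := y)
    omega

/-! ### Transfer along an isometry -/

theorem W_transfer {P Q : Type} [MetricSpace P] [MetricSpace Q] [DecidableEq P] [DecidableEq Q]
    (e : P ≃ᵢ Q) (G : Finset P) (k : ℕ) :
    ∀ A B : Finset P, W (fun S : Finset P => Built G (S : Set P)) k A B →
      W (fun S : Finset Q => Built (G.image e) (S : Set Q)) k (A.image e) (B.image e) := by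
  have hmem : ∀ (S : Finset P) (x : P), e x ∈ S.image e ↔ x ∈ S := by
    intro S x
    constructor
    · intro h
      obtain ⟨z, hz, hz'⟩ := Finset.mem_image.1 h
      rwa [← e.injective hz']
    · exact fun h => Finset.mem_image_of_mem _ h
  have hb : ∀ S : Finset P, Built G (S : Set P) → Built (G.image e) ((S.image e : Finset Q) : Set Q) := by
    rintro S ⟨φ, hφ⟩
    refine ⟨(e.symm.trans φ).trans e, fun g hg => ?_⟩
    obtain ⟨g', hg', rfl⟩ := Finset.mem_image.1 hg
    have := hφ g' hg'
    simp only [IsometryEquiv.trans_apply, IsometryEquiv.symm_apply_apply]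
    rw [Finset.mem_coe, hmem]
    exact this
  induction k with
  | zero =>
    rintro A B ⟨x, h1, h2, h3⟩
    refine ⟨e x, by rwa [hmem], by rwa [hmem], ?_⟩
    rw [← Finset.image_insert]
    exact hb _ h3
  | succ k ih =>
    rintro A B ⟨x, h1, h2, h3⟩
    refine ⟨e x, by rwa [hmem], by rwa [hmem], ?_⟩
    intro y hy1 hy2
    rw [← Finset.image_insert] at hy1 ⊢
    have hey : e (e.symm y) = y := e.apply_symm_apply y
    rw [← hey, ← Finset.image_insert]
    apply ih
    apply h3
    · rwa [← hmem, hey]
    · rwa [← hmem, hey]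

/-! ### The finite hypergraph game -/

/-- Breaker to move; Maker still needs `k` points.  `E` lists the sets (of cells) that would
complete a copy.  Cell number `20` is a dummy cell. -/
def wins : ℕ → List (List ℕ) → Bool
  | 0, E => !E.isEmpty
  | k + 1, E => Nat.ble (2 ^ (k + 1)) E.length &&
      (20 :: E.flatten.dedup).all (fun z => (E.flatten.dedup).any (fun x =>
        !(Nat.beq x z) && wins k ((E.filter (fun e => !(e.elem z) && e.elem x)).map
          (fun e => e.filter (fun a => !(Nat.beq a x))))))

/-- The cells, in coordinates with respect to `1` and `exp (i π / 3)`. -/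
def cells : List (ℤ × ℤ) :=
  [(0, 1), (1, -1), (-1, 1), (0, -1), (2, -1), (1, 1), (-1, 0), (2, 0), (0, 2), (2, -2), (-1, 2),
    (1, -2), (3, -1), (-1, -1), (-2, 1), (2, 1), (3, -2), (0, -2), (1, 2), (-2, 2)]

/-- The goal set in lattice coordinates. -/
def goal : List (ℤ × ℤ) := [(0, 0), (0, 1), (0, 2), (1, 0), (1, 1), (2, -1)]

/-- The sets completing `{(0,0), (1,0)}` to a copy, with the corresponding symmetries. -/
def sets : List (List ℕ × (Bool × ℕ × (ℤ × ℤ))) :=
  List.zip
  [[0, 8, 5, 4], [3, 0, 1, 9], [2, 0, 1, 7], [1, 9, 4, 12], [14, 6, 2, 3], [6, 2, 0, 8],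
   [0, 5, 18, 7], [3, 1, 5, 4], [2, 3, 11, 1], [10, 0, 1, 5], [6, 0, 1, 4], [14, 2, 10, 0],
   [5, 4, 7, 12], [11, 1, 4, 7], [6, 17, 3, 1], [2, 3, 0, 5], [1, 5, 9, 4], [2, 0, 8, 1],
   [10, 0, 5, 7], [19, 6, 2, 0], [2, 3, 1, 4], [6, 0, 1, 5], [13, 3, 11, 1], [5, 4, 7, 15],
   [2, 10, 3, 0], [0, 11, 1, 4], [6, 3, 1, 9], [1, 4, 7, 16], [2, 0, 5, 4], [3, 0, 1, 7],
   [0, 8, 5, 15], [13, 6, 2, 3]]
  [(false, 0, (0, 0)), (false, 0, (0, -1)), (false, 1, (1, -1)), (false, 1, (2, -2)),
   (false, 1, (0, -1)), (false, 2, (1, 0)), (false, 2, (2, 0)), (false, 2, (2, -1)),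
   (false, 3, (1, 0)), (false, 3, (1, 1)), (false, 4, (0, 1)), (false, 4, (-1, 2)),
   (false, 4, (1, 1)), (false, 5, (0, 0)), (false, 5, (-1, 0)), (false, 5, (-1, 1)),
   (true, 0, (0, 0)), (true, 0, (-1, 1)), (true, 1, (0, 0)), (true, 1, (-1, 0)),
   (true, 1, (0, -1)), (true, 2, (1, -1)), (true, 2, (1, -2)), (true, 2, (2, -1)),
   (true, 3, (1, 0)), (true, 3, (2, -1)), (true, 4, (1, 0)), (true, 4, (2, 0)),
   (true, 4, (1, 1)), (true, 5, (0, 1)), (true, 5, (0, 2)), (true, 5, (-1, 1))]

/-- Rotation by 60 degrees in lattice coordinates. -/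
def rot (p : ℤ × ℤ) : ℤ × ℤ := (-p.2, p.1 + p.2)

/-- Complex conjugation in lattice coordinates. -/
def refl (p : ℤ × ℤ) : ℤ × ℤ := (p.1 + p.2, -p.2)

/-- The symmetry of the lattice with the given code. -/
def symm (c : Bool × ℕ × (ℤ × ℤ)) (p : ℤ × ℤ) : ℤ × ℤ :=
  (rot^[c.2.1] (if c.1 then refl p else p)) + c.2.2

theorem wins_sets : wins 4 (sets.map Prod.fst) = true := by
  decide +kernel

theorem sets_ok : (sets.all fun e => e.1.all (fun i => Nat.blt i 20) && Nat.beq e.1.length 4 &&
    goal.all fun g => decide (symm e.2 g ∈ (0, 0) :: (1, 0) :: e.1.map fun i =>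
      cells.getD i (0, 0))) = true := by
  decide +kernel

/-! ### Geometry of the lattice -/

/-- The complex number `exp (i π / 3)`. -/
noncomputable def w : ℂ := ⟨1 / 2, Real.sqrt 3 / 2⟩

theorem w_sq : w * w = w - 1 := by
  have h : Real.sqrt 3 * Real.sqrt 3 = 3 := Real.mul_self_sqrt (by norm_num)
  apply Complex.ext
  · simp only [w, Complex.mul_re, Complex.sub_re, Complex.one_re]
    nlinarith
  · simp only [w, Complex.mul_im, Complex.sub_im, Complex.one_im]
    ring

theorem conj_w : (starRingEnd ℂ) w = 1 - w := by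
  apply Complex.ext
  · simp only [w, Complex.conj_re, Complex.sub_re, Complex.one_re]
    norm_num
  · simp only [w, Complex.conj_im, Complex.sub_im, Complex.one_im]
    ring

theorem norm_w : ‖w‖ = 1 := by
  have h : Real.sqrt 3 * Real.sqrt 3 = 3 := Real.mul_self_sqrt (by norm_num)
  have h2 : Complex.normSq w = 1 := by
    rw [Complex.normSq_apply]
    simp only [w]
    nlinarith
  rw [Complex.norm_def, h2, Real.sqrt_one]

/-- The lattice point with the given coordinates. -/
noncomputable def pt (p : ℤ × ℤ) : ℂ := p.1 + p.2 * w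

theorem pt_rot (p : ℤ × ℤ) : pt (rot p) = w * pt p := by
  simp only [pt, rot]
  push_cast
  linear_combination (-(p.2 : ℂ)) * w_sq

theorem pt_refl (p : ℤ × ℤ) : pt (refl p) = (starRingEnd ℂ) (pt p) := by
  simp only [pt, refl, map_add, map_mul, map_intCast, conj_w]
  push_cast
  ring

theorem pt_add (p q : ℤ × ℤ) : pt (p + q) = pt p + pt q := by
  simp only [pt, Prod.fst_add, Prod.snd_add]
  push_cast
  ring

theorem pt_injective : Function.Injective pt := by
  intro p q h
  have h3 : Real.sqrt 3 ≠ 0 := by positivity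
  have him := congrArg Complex.im h
  have hre := congrArg Complex.re h
  simp only [pt, w, Complex.add_im, Complex.mul_im, Complex.intCast_im, Complex.intCast_re,
    Complex.add_re, Complex.mul_re] at him hre
  have h2 : (p.2 : ℝ) = q.2 := by
    have : (p.2 : ℝ) * (Real.sqrt 3 / 2) = q.2 * (Real.sqrt 3 / 2) := by linarith
    exact mul_right_cancel₀ (by positivity) this
  have h1 : (p.1 : ℝ) = q.1 := by
    rw [h2] at hre
    linarith
  exact Prod.ext (by exact_mod_cast h1) (by exact_mod_cast h2)

theorem exists_symm (c : Bool × ℕ × (ℤ × ℤ)) :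
    ∃ φ : ℂ ≃ᵢ ℂ, ∀ p, φ (pt p) = pt (symm c p) := by
  obtain ⟨f, r, t⟩ := c
  -- rotations
  have hrot : ∃ φ : ℂ ≃ᵢ ℂ, ∀ p, φ (pt p) = pt (rot^[r] p) := by
    induction r with
    | zero => exact ⟨IsometryEquiv.refl ℂ, fun p => rfl⟩
    | succ r ih =>
      obtain ⟨φ, hφ⟩ := ih
      refine ⟨φ.trans (rotation (⟨w, mem_sphere_zero_iff_norm.2 norm_w⟩ : Circle)).toIsometryEquiv,
        fun p => ?_⟩
      rw [Function.iterate_succ_apply', pt_rot, ← hφ]
      rfl
  obtain ⟨φ, hφ⟩ := hrot
  have hrefl : ∃ ψ : ℂ ≃ᵢ ℂ, ∀ p, ψ (pt p) = pt (if f then refl p else p) := by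
    cases f
    · exact ⟨IsometryEquiv.refl ℂ, fun p => rfl⟩
    · refine ⟨Complex.conjLIE.toIsometryEquiv, fun p => ?_⟩
      simp only [if_true, pt_refl]
      rfl
  obtain ⟨ψ, hψ⟩ := hrefl
  refine ⟨(ψ.trans φ).trans (IsometryEquiv.addRight (pt t)), fun p => ?_⟩
  simp only [IsometryEquiv.trans_apply, hψ, hφ, symm, pt_add, IsometryEquiv.addRight_apply]

/-! ### Playing on the board `u * pt p` -/

/-- The goal set in the complex plane. -/
noncomputable def goalC : Finset ℂ := (goal.map pt).toFinset

/-- `S` contains a copy of the goal set. -/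
def bldC (S : Finset ℂ) : Prop := Built goalC (S : Set ℂ)

theorem bldC_mono {S T : Finset ℂ} (h : S ⊆ T) (hS : bldC S) : bldC T := by
  obtain ⟨φ, hφ⟩ := hS
  exact ⟨φ, fun g hg => h (hφ g hg)⟩

/-- The point of the plane in cell number `i` of the board turned by `u`. -/
noncomputable def pos (u : ℂ) (i : ℕ) : ℂ := u * pt (cells.getD i (0, 0))

theorem cells_nodup : cells.Nodup := by decide

theorem pos_injOn (u : ℂ) (hu : u ≠ 0) {i j : ℕ} (hi : i < 20) (hj : j < 20)
    (h : pos u i = pos u j) : i = j := by
  have h1 := pt_injective (mul_left_cancel₀ hu h)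
  have hl : cells.length = 20 := rfl
  rw [List.getD_eq_getElem _ _ (by omega), List.getD_eq_getElem _ _ (by omega)] at h1
  exact (cells_nodup.getElem_inj_iff).1 h1

theorem hyper_step (u : ℂ) (hu : u ≠ 0) (k : ℕ) (E : List (List ℕ)) (A B : Finset ℂ)
    (hw : wins (k + 1) E = true)
    (hpos : ∀ e ∈ E, ∀ a ∈ e, a < 20 ∧ pos u a ∉ A ∧ pos u a ∉ B)
    (y : ℂ) :
    ∃ x, x < 20 ∧ pos u x ∉ A ∧ pos u x ∉ B ∧ pos u x ≠ y ∧ ∃ E' : List (List ℕ),
      (∀ e' ∈ E', ∃ e ∈ E, x ∈ e ∧ e' = e.filter (fun a => !(Nat.beq a x))) ∧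
      wins k E' = true ∧ ∀ e' ∈ E', ∀ a ∈ e', pos u a ≠ y := by
  classical
  simp only [wins, Bool.and_eq_true, List.all_eq_true, List.any_eq_true] at hw
  obtain ⟨-, hw⟩ := hw
  -- the cell of `y`
  obtain ⟨z, hz, hzy⟩ : ∃ z ∈ 20 :: E.flatten.dedup, ∀ a, a < 20 → a ∈ E.flatten →
      pos u a = y → a = z := by
    by_cases h : ∃ a ∈ E.flatten, pos u a = y
    · obtain ⟨a, ha, hay⟩ := h
      obtain ⟨e, he, hae⟩ := List.mem_flatten.1 ha
      refine ⟨a, List.mem_cons_of_mem _ (List.mem_dedup.2 ha), fun b hb _ hby => ?_⟩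
      exact pos_injOn u hu hb (hpos e he a hae).1 (hby.trans hay.symm)
    · push Not at h
      exact ⟨20, List.mem_cons_self, fun b _ hb hby => absurd hby (h b hb)⟩
  obtain ⟨x, hx, hxz, hxw⟩ := hw z hz
  rw [List.mem_dedup] at hx
  obtain ⟨e, he, hxe⟩ := List.mem_flatten.1 hx
  obtain ⟨hx20, hxA, hxB⟩ := hpos e he x hxe
  have hxz' : x ≠ z := by
    rintro rfl
    simp at hxz
  refine ⟨x, hx20, hxA, hxB, fun h => hxz' (hzy x hx20 hx h), _, ?_, hxw, ?_⟩
  · intro e' he'
    obtain ⟨e, he, rfl⟩ := List.mem_map.1 he'
    rw [List.mem_filter] at he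
    refine ⟨e, he.1, ?_, rfl⟩
    simpa using (show _ ∧ _ by simpa using he.2).2
  · intro e' he' a ha hay
    obtain ⟨e, he, rfl⟩ := List.mem_map.1 he'
    rw [List.mem_filter] at he ha
    have haz : a = z := hzy a (hpos e he.1 a ha.1).1 (List.mem_flatten.2 ⟨e, he.1, ha.1⟩) hay
    subst haz
    have h2 := he.2
    simp only [Bool.and_eq_true, Bool.not_eq_true', List.elem_eq_contains] at h2
    have := h2.1
    simp [ha.1] at this

theorem hyper (u : ℂ) (hu : u ≠ 0) : ∀ (k : ℕ) (E : List (List ℕ)) (A B : Finset ℂ),
    wins (k + 1) E = true →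
    (∀ e ∈ E, e.length ≤ k + 1) →
    (∀ e ∈ E, ∀ a ∈ e, a < 20 ∧ pos u a ∉ A ∧ pos u a ∉ B) →
    (∀ e ∈ E, bldC (A ∪ (e.map (pos u)).toFinset)) →
    ∀ y, y ∉ A → y ∉ B → W bldC k A (insert y B) := by
  intro k
  induction k with
  | zero =>
    intro E A B hw hlen hpos hb y _ _
    obtain ⟨x, hx20, hxA, hxB, hxy, E', hE', hE'w, -⟩ := hyper_step u hu 0 E A B hw hpos y
    refine ⟨pos u x, hxA, ?_, ?_⟩
    · rw [Finset.mem_insert, not_or]
      exact ⟨hxy, hxB⟩
    · -- `E'` is not empty
      obtain ⟨e', he'⟩ : ∃ e', e' ∈ E' := by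
        cases E' with
        | nil => simp [wins] at hE'w
        | cons a l => exact ⟨a, by simp⟩
      obtain ⟨e, he, hxe, hee⟩ := hE' e' he'
      refine bldC_mono ?_ (hb e he)
      intro q hq
      rw [Finset.mem_union, List.mem_toFinset, List.mem_map] at hq
      rw [Finset.mem_insert]
      rcases hq with hq | ⟨a, ha, rfl⟩
      · exact Or.inr hq
      · left
        have hl := hlen e he
        have : e = [a] := by
          match e, hl, ha with
          | [b], _, ha => rw [List.mem_singleton.1 ha]
        subst this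
        rw [List.mem_singleton.1 hxe]
  | succ k ih =>
    intro E A B hw hlen hpos hb y _ _
    obtain ⟨x, hx20, hxA, hxB, hxy, E', hE', hE'w, hE'y⟩ :=
      hyper_step u hu (k + 1) E A B hw hpos y
    refine ⟨pos u x, hxA, ?_, ?_⟩
    · rw [Finset.mem_insert, not_or]
      exact ⟨hxy, hxB⟩
    · intro y' hy'A hy'B
      refine ih E' _ _ hE'w ?_ ?_ ?_ y' hy'A hy'B
      · intro e' he'
        obtain ⟨e, he, hxe, rfl⟩ := hE' e' he'
        have hl := hlen e he
        have : (e.filter (fun a => !(Nat.beq a x))).length < e.length := by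
          rw [List.length_filter_lt_length_iff_exists]
          exact ⟨x, hxe, by simp⟩
        omega
      · intro e' he' a ha
        obtain ⟨e, he, hxe, rfl⟩ := hE' e' he'
        rw [List.mem_filter] at ha
        obtain ⟨h20, hA, hB⟩ := hpos e he a ha.1
        have hax : a ≠ x := by
          rintro rfl
          simp at ha
        refine ⟨h20, ?_, ?_⟩
        · rw [Finset.mem_insert, not_or]
          exact ⟨fun h => hax (pos_injOn u hu h20 hx20 h), hA⟩
        · rw [Finset.mem_insert, not_or]
          exact ⟨hE'y _ he' a (List.mem_filter.2 ha), hB⟩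
      · intro e' he'
        obtain ⟨e, he, hxe, rfl⟩ := hE' e' he'
        refine bldC_mono ?_ (hb e he)
        intro q hq
        rw [Finset.mem_union, List.mem_toFinset, List.mem_map] at hq
        rw [Finset.mem_union, Finset.mem_insert, List.mem_toFinset, List.mem_map]
        rcases hq with hq | ⟨a, ha, rfl⟩
        · exact Or.inl (Or.inr hq)
        · by_cases hax : a = x
          · subst hax
            exact Or.inl (Or.inl rfl)
          · refine Or.inr ⟨a, List.mem_filter.2 ⟨ha, ?_⟩, rfl⟩
            rw [Bool.not_eq_true', Bool.eq_false_iff]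
            exact fun h => hax (Nat.eq_of_beq_eq_true h)

/-- The goal set in the Euclidean plane. -/
noncomputable def goalE : Finset Plane :=
  goalC.image Complex.orthonormalBasisOneI.repr.toIsometryEquiv

theorem W_start : W bldC 5 ∅ ∅ := by
  refine ⟨0, by simp, by simp, ?_⟩
  intro y hy _
  have hy0 : y ≠ 0 := by simpa using hy
  -- choice of the direction
  have : Infinite Circle := by
    have : Infinite (Set.Ioc (-Real.pi) Real.pi) :=
      (Set.Ioc_infinite (by linarith [Real.pi_pos])).to_subtype
    exact Circle.argEquiv.infinite_iff.2 this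
  have hfin : ((((1, 0) :: cells).map fun p => y / pt p).toFinset : Set ℂ).Finite :=
    Finset.finite_toSet _
  obtain ⟨u, hu⟩ : ∃ u : Circle, (u : ℂ) ∉ (((1, 0) :: cells).map fun p => y / pt p).toFinset := by
    by_contra hcon
    push Not at hcon
    have : Set.Finite (Set.univ : Set Circle) := by
      refine Set.Finite.of_injOn (f := fun u : Circle => (u : ℂ)) (fun u _ => hcon u)
        (fun u _ v _ h => Circle.ext h) hfin
    exact Set.infinite_univ this
  have hu0 : (u : ℂ) ≠ 0 := Circle.coe_ne_zero u
  have hne : ∀ p ∈ (1, 0) :: cells, y ≠ u * pt p := by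
    intro p hp h
    apply hu
    rw [List.mem_toFinset, List.mem_map]
    refine ⟨p, hp, ?_⟩
    have hpt : pt p ≠ 0 := by
      intro h0
      rw [h0, mul_zero] at h
      exact hy0 h
    rw [h]
    field_simp
  have h10 : pt (1, 0) = 1 := by simp [pt]
  have h00 : pt (0, 0) = 0 := by simp [pt]
  have hcell : ∀ i < 20, cells.getD i (0, 0) ∈ cells := by decide
  have hcell0 : ∀ i < 20, cells.getD i (0, 0) ≠ (0, 0) ∧ cells.getD i (0, 0) ≠ (1, 0) := by decide
  refine ⟨u, by simp, ?_, ?_⟩
  · have := hne (1, 0) (by simp)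
    rw [h10, mul_one] at this
    simpa using this.symm
  · have hok := sets_ok
    rw [List.all_eq_true] at hok
    apply hyper u hu0 3 (sets.map Prod.fst) _ _ wins_sets
    · intro e he
      obtain ⟨c, hc, rfl⟩ := List.mem_map.1 he
      have := hok c hc
      simp only [Bool.and_eq_true, List.all_eq_true] at this
      exact (Nat.eq_of_beq_eq_true this.1.2).le
    · intro e he a ha
      obtain ⟨c, hc, rfl⟩ := List.mem_map.1 he
      have := hok c hc
      simp only [Bool.and_eq_true, List.all_eq_true] at this
      have h20 : a < 20 := by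
        have := this.1.1 a ha
        rw [Nat.blt_eq] at this
        exact this
      refine ⟨h20, ?_, ?_⟩
      · simp only [Finset.mem_insert, not_or, Finset.notMem_empty, not_false_eq_true, and_true]
        constructor
        · intro h
          have : pt (cells.getD a (0, 0)) = pt (1, 0) := by
            rw [h10]
            exact mul_left_cancel₀ hu0 (h.trans (mul_one _).symm)
          exact (hcell0 a h20).2 (pt_injective this)
        · intro h
          have : pt (cells.getD a (0, 0)) = pt (0, 0) := by
            rw [h00]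
            exact mul_left_cancel₀ hu0 (h.trans (mul_zero _).symm)
          exact (hcell0 a h20).1 (pt_injective this)
      · simp only [Finset.mem_insert, not_or, Finset.notMem_empty, not_false_eq_true, and_true]
        exact fun h => hne _ (List.mem_cons_of_mem _ (hcell a h20)) h.symm
    · intro e he
      obtain ⟨c, hc, rfl⟩ := List.mem_map.1 he
      have := hok c hc
      simp only [Bool.and_eq_true, List.all_eq_true, decide_eq_true_eq] at this
      obtain ⟨φ, hφ⟩ := exists_symm c.2
      refine ⟨φ.trans (rotation u).toIsometryEquiv, ?_⟩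
      intro g hg
      rw [goalC, List.mem_toFinset, List.mem_map] at hg
      obtain ⟨g', hg', rfl⟩ := hg
      have hmem := this.2 g' hg'
      have hval : (φ.trans (rotation u).toIsometryEquiv) (pt g') = u * pt (symm c.2 g') := by
        rw [IsometryEquiv.trans_apply, hφ]
        rfl
      rw [hval, Finset.mem_coe, Finset.mem_union]
      rcases List.mem_cons.1 hmem with h | h
      · left
        rw [h, h00]
        simp
      · rcases List.mem_cons.1 h with h | h
        · left
          rw [h, h10]
          simp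
        · right
          obtain ⟨i, hi, hi'⟩ := List.mem_map.1 h
          rw [List.mem_toFinset, List.mem_map]
          exact ⟨i, hi, by rw [← hi']; rfl⟩

/-- The six points `(0,0)`, `(1/2, √3/2)`, `(1, √3)`, `(1,0)`, `(3/2, √3/2)`, `(3/2, -√3/2)`. -/
theorem goalE_card : goalE.card = 6 := by
  have h1 : (goal.map pt).Nodup := (List.nodup_map_iff pt_injective).2 (by decide)
  rw [goalE, Finset.card_image_of_injective _ (IsometryEquiv.injective _), goalC,
    List.toFinset_card_of_nodup h1]
  rfl

theorem result : ∃ G : Finset Plane, G.card = 6 ∧ ∃ σ : List Plane → Plane,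
    StrongWinningWithin G σ 5 := by
  refine ⟨goalE, goalE_card, ?_⟩
  classical
  apply strongWin_of_W goalE 5 (by rw [goalE_card]; norm_num)
  have := W_transfer Complex.orthonormalBasisOneI.repr.toIsometryEquiv goalC 5 ∅ ∅ W_start
  rw [Finset.image_empty] at this
  exact this

end Pool.Agent.Results.MP_acad4b_co.SixPointWinner
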